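import Pool.Agent.Helper48.FB.Defs
import Pool.Agent.Helper3.ThinRep

/-!
# Project FB: size of a world, windows of a world from windows of the top set
-/

set_option autoImplicit false

namespace Pool.Agent.Helper81.FB

open Finset
open Pool.Agent.Helper3.Thin (dig und off Lab GoodSet und_lt off_le card_Lab)
open Pool.Agent.Helper53.WR
open Pool.Agent.Helper48.FB

theorem card_index {q : ℕ} (Γ : Finset (ZMod q × ZMod q)) (hΓ : Γ.card ≤ 3 * q) :
    ((Γ ×ˢ Γ) ×ˢ (univ : Finset Lab)).card ≤ 4096 * (9 * q ^ 2) := by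
  rw [card_product, card_product, card_univ, card_Lab]
  have h : Γ.card * Γ.card ≤ (3 * q) * (3 * q) := Nat.mul_le_mul hΓ hΓ
  calc Γ.card * Γ.card * 4096 ≤ (3 * q) * (3 * q) * 4096 := Nat.mul_le_mul_right _ h
    _ = 4096 * (9 * q ^ 2) := by ring

/-- FB-B5 (size of a world). -/
theorem world_card {q : ℕ} [Fact q.Prime] (Γ : Finset (ZMod q × ZMod q)) (hΓ : Γ.card ≤ 3 * q)
    (T : Finset ℕ) (S : ℕ) (τ : ZMod q × ZMod q → ZMod q × ZMod q)
    (σ : (ZMod q × ZMod q) × (ZMod q × ZMod q) → ℕ) :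
    (World Γ T S τ σ).card ≤ 4096 * (9 * q ^ 2 * T.card) := by
  unfold World Ind
  refine card_image_le.trans ?_
  rw [card_product]
  calc _ ≤ 4096 * (9 * q ^ 2) * T.card := Nat.mul_le_mul_right _ (card_index Γ hΓ)
    _ = _ := by ring

theorem div_aux {m a h t : ℕ} (hm : 0 < m) (h1 : a ≤ m * t) (h2 : m * t < a + h) :
    a / m ≤ t ∧ t < a / m + (h / m + 2) := by
  refine ⟨?_, ?_⟩
  · exact Nat.div_le_of_le_mul h1
  · have e1 := Nat.div_add_mod a m
    have e2 := Nat.div_add_mod h m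
    have l1 := Nat.mod_lt a hm
    have l2 := Nat.mod_lt h hm
    by_contra hcon
    have h3 : a / m + (h / m + 2) ≤ t := not_lt.1 hcon
    have h4 : m * (a / m + (h / m + 2)) ≤ m * t := Nat.mul_le_mul_left m h3
    have e3 : m * (a / m + (h / m + 2)) = m * (a / m) + m * (h / m) + 2 * m := by ring
    omega

/-- FB-B7 (windows of a world, from windows of `T`). -/
theorem world_win_far {q : ℕ} [Fact q.Prime] (Γ : Finset (ZMod q × ZMod q))
    (hΓ : Γ.card ≤ 3 * q) (T : Finset ℕ) (S W : ℕ)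
    (τ : ZMod q × ZMod q → ZMod q × ZMod q)
    (σ : (ZMod q × ZMod q) × (ZMod q × ZMod q) → ℕ) (hσ : ∀ p, σ p < S) (y h : ℕ)
    (hW : ∀ z, y / q ^ 4 ≤ z + 514 + 2 * S → (win T z (h / q ^ 4 + 2)).card ≤ W) :
    (win (World Γ T S τ σ) y h).card ≤ 4096 * (9 * q ^ 2 * W) := by
  have hq : 0 < q ^ 4 := pow_pos (Fact.out : q.Prime).pos 4
  set c : ((ZMod q × ZMod q) × (ZMod q × ZMod q)) × Lab → ℕ := fun pe =>
    und pe.1.1 (pe.1.2 + τ pe.1.1) + off q pe.2 + q ^ 4 * (S + σ pe.1) with hc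
  have hcl : ∀ pe, c pe < q ^ 4 * (514 + 2 * S) := by
    intro pe
    have h1 := und_lt pe.1.1 (pe.1.2 + τ pe.1.1)
    have h2 := off_le q (Fact.out : q.Prime).two_le pe.2
    have h3 : q ^ 4 * (S + σ pe.1) ≤ q ^ 4 * (2 * S) :=
      Nat.mul_le_mul_left _ (by have := hσ pe.1; omega)
    have e : q ^ 4 * (514 + 2 * S) = 514 * q ^ 4 + q ^ 4 * (2 * S) := by ring
    rw [hc, e]
    show und pe.1.1 (pe.1.2 + τ pe.1.1) + off q pe.2 + q ^ 4 * (S + σ pe.1) < _
    omega
  have hsub : win (World Γ T S τ σ) y h ⊆ ((Γ ×ˢ Γ) ×ˢ (univ : Finset Lab)).biUnion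
      (fun pe => (win T ((y - c pe) / q ^ 4) (h / q ^ 4 + 2)).image
        (fun t => elt S τ σ pe.1 pe.2 t)) := by
    intro b hb
    unfold win at hb
    rw [mem_filter] at hb
    obtain ⟨hb, hy1, hy2⟩ := hb
    unfold World Ind at hb
    rw [mem_image] at hb
    obtain ⟨x, hx, rfl⟩ := hb
    rw [mem_product] at hx
    rw [mem_biUnion]
    refine ⟨x.1, hx.1, ?_⟩
    rw [mem_image]
    refine ⟨x.2, ?_, rfl⟩
    have he : elt S τ σ x.1.1 x.1.2 x.2 = c x.1 + q ^ 4 * x.2 := by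
      rw [hc]
      unfold elt
      ring
    rw [he] at hy1 hy2
    have h3 := div_aux (m := q ^ 4) (a := y - c x.1) (h := h) (t := x.2) hq (by omega) (by omega)
    unfold win
    rw [mem_filter]
    exact ⟨hx.2, h3.1, h3.2⟩
  refine (card_le_card hsub).trans ?_
  refine (card_biUnion_le_card_mul _ _ W ?_).trans ?_
  · intro pe _
    refine card_image_le.trans (hW _ ?_)
    have h1 := hcl pe
    have h2 : y < q ^ 4 * ((y - c pe) / q ^ 4 + 514 + 2 * S + 1) := by
      have h3 := Nat.lt_mul_div_succ (y - c pe) hq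
      have e1 : q ^ 4 * ((y - c pe) / q ^ 4 + 514 + 2 * S + 1) =
        q ^ 4 * ((y - c pe) / q ^ 4 + 1) + q ^ 4 * (514 + 2 * S) := by ring
      rw [e1]
      omega
    have h4 := (Nat.div_lt_iff_lt_mul hq).2 (by rwa [mul_comm] at h2)
    omega
  · calc _ ≤ 4096 * (9 * q ^ 2) * W := Nat.mul_le_mul_right _ (card_index Γ hΓ)
      _ = _ := by ring

end Pool.Agent.Helper81.FB
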